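import Pool.Agent.Lib.MP_524519_ag.DU5.LNK.Iface

/-!
# DU5, chapter LNK, module NIL: an ideal of colength at most `m` contains `x_i^m`

If `P ≠ 0` is a polynomial of degree `≤ m` in one variable with `P(x_i) ∈ J`, write
`P = T^j Q` with `Q(0) ≠ 0`; then `Q(x_i)` is a unit, so that `x_i^j ∈ J` and `x_i^m ∈ J`.
Otherwise the `m + 1`-dimensional space of the polynomials of degree `≤ m` embeds in the quotient.
-/

set_option autoImplicit false

namespace Pool.Agent.DU5.LNK

open MvPowerSeries

theorem nil_aux {k : Type} [Field k] {n : ℕ} (J : Ideal (O k n)) (m : ℕ) (i : Fin n)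
    (P : Polynomial k) (hP : P ≠ 0) (hd : P.natDegree ≤ m)
    (h : Polynomial.aeval (X i : O k n) P ∈ J) : (X i : O k n) ^ m ∈ J := by
  obtain ⟨Q, hQ, hQ0⟩ := Polynomial.exists_eq_pow_rootMultiplicity_mul_and_not_dvd P hP 0
  set j := Polynomial.rootMultiplicity 0 P
  have hQn : Q ≠ 0 := by
    rintro rfl
    exact hQ0 (dvd_zero _)
  have hj : j ≤ m := by
    refine le_trans ?_ hd
    rw [hQ, Polynomial.natDegree_mul (pow_ne_zero _ (Polynomial.X_sub_C_ne_zero 0)) hQn,
      Polynomial.natDegree_pow, Polynomial.natDegree_X_sub_C]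
    omega
  have hc : constantCoeff (Polynomial.aeval (X i : O k n) Q) = Q.eval 0 := by
    have hid : (constantCoeff : O k n →+* k).comp (algebraMap k (O k n)) = RingHom.id k := by
      ext a
      simp [MvPowerSeries.algebraMap_apply]
    rw [Polynomial.aeval_def, Polynomial.hom_eval₂, hid, constantCoeff_X, Polynomial.eval₂_id]
  have hne : Q.eval 0 ≠ 0 := by
    intro h0
    apply hQ0
    rw [Polynomial.dvd_iff_isRoot]
    exact h0
  have hu : IsUnit (Polynomial.aeval (X i : O k n) Q) := by
    rw [MvPowerSeries.isUnit_iff_constantCoeff, hc]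
    exact isUnit_iff_ne_zero.mpr hne
  have hX : Polynomial.aeval (X i : O k n) P =
      (X i : O k n) ^ j * Polynomial.aeval (X i : O k n) Q := by
    conv_lhs => rw [hQ]
    simp
  rw [hX] at h
  have hXj : (X i : O k n) ^ j ∈ J := by
    obtain ⟨u, hu'⟩ := hu
    rw [← hu'] at h
    have := J.mul_mem_right (↑u⁻¹ : O k n) h
    rwa [mul_assoc, Units.mul_inv, mul_one] at this
  obtain ⟨e, rfl⟩ := Nat.exists_eq_add_of_le hj
  rw [pow_add]
  exact J.mul_mem_right _ hXj

theorem nil : NilStatement := by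
  intro k _ n J m hlen i
  by_contra hnot
  have hinj : Function.Injective
      (((Ideal.Quotient.mkₐ k J).comp (Polynomial.aeval (X i : O k n))).toLinearMap.comp
        (Polynomial.degreeLT k (m + 1)).subtype) := by
    rw [← LinearMap.ker_eq_bot, LinearMap.ker_eq_bot']
    rintro ⟨P, hP⟩ h0
    by_contra hP0
    have hP1 : P ≠ 0 := by
      rintro rfl
      exact hP0 rfl
    apply hnot
    refine nil_aux J m i P hP1 ?_ ?_
    · rw [Polynomial.mem_degreeLT] at hP
      have := (Polynomial.natDegree_lt_iff_degree_lt hP1).mpr hP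
      omega
    · have h1 : Ideal.Quotient.mk J (Polynomial.aeval (X i : O k n) P) = 0 := h0
      exact Ideal.Quotient.eq_zero_iff_mem.mp h1
  have h1 := Module.length_le_of_injective _ hinj
  have h2 : Module.length k (Polynomial.degreeLT k (m + 1)) = (m + 1 : ℕ) := by
    rw [(Polynomial.degreeLTEquiv k (m + 1)).length_eq, Module.length_eq_finrank]
    simp
  rw [h2] at h1
  have h3 : ((m + 1 : ℕ) : ℕ∞) ≤ (m : ℕ∞) := le_trans h1 hlen
  have h4 : m + 1 ≤ m := by exact_mod_cast h3
  omega

end Pool.Agent.DU5.LNK
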