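import Pool.Agent.Lib.MP_524519_ag.DU5.LNK.Iface
import Pool.Agent.Lib.MP_524519_ag.DU5.PC.H38.PCM

/-! # DU5, chapter LNK, module PC2: the plane curve theorem with the bound of `E` -/

set_option autoImplicit false

namespace Pool.Agent.DU5.LNK

open Polynomial PC

open PC.PCM in
/-- PC2. -/
theorem pc2 (hNP : NpStatement) (hPCP : PcpStatement) (hWEI : WeiStatement)
    (hEVI : EviStatement) (hORD : OrdStatement) (hFNL : FnlStatement) (hLNB : LnbStatement) :
    Pc2Statement := by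
  intro K _ d hd hgood F hreg
  obtain ⟨P, u, hu, hPm, hPd, hinc, hPc, hdiv⟩ := hWEI K d F hd hreg
  obtain ⟨hev1, hev2, hev3⟩ := hEVI K
  obtain ⟨n, hn⟩ : ∃ n, n = rootExp d := ⟨_, rfl⟩
  have hn0 : n ≠ 0 := by rw [hn]; exact rootExp_ne d
  have hnK : (n : K) ≠ 0 := by rw [hn]; exact rootExp_cast hgood
  obtain ⟨η, hη⟩ := hNP K d hgood P hPm hPd n hn0 (by rw [hn])
  have hroot : ∀ i, pev n hn0 (η i) P = 0 := by
    intro i
    unfold pev
    rw [hη, eval_prod]
    exact Finset.prod_eq_zero (Finset.mem_univ i) (by simp)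
  have hXn : ∀ i, PowerSeries.X ^ n ∣ η i := fun i =>
    hORD K d P hPm hPd hPc n hn0 (η i) (hroot i)
  have hc : ∀ i, PowerSeries.constantCoeff (η i) = 0 := by
    intro i
    obtain ⟨b, hb⟩ := hXn i
    rw [hb, map_mul, map_pow, PowerSeries.constantCoeff_X, zero_pow hn0, zero_mul]
  -- the evaluation is a ring homomorphism
  have hmul : ∀ i (g h : R2 K), PC.ev n (η i) (g * h) = PC.ev n (η i) g * PC.ev n (η i) h :=
    fun i g h => (hev3 n hn0 (η i) (hc i) g h).1
  have hadd : ∀ i (g h : R2 K), PC.ev n (η i) (g + h) = PC.ev n (η i) g + PC.ev n (η i) h :=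
    fun i g h => (hev3 n hn0 (η i) (hc i) g h).2
  have hone : ∀ i, PC.ev n (η i) (1 : R2 K) = 1 := by
    intro i
    have h1 := hev1 n hn0 (η i) (hc i) 1
    rw [map_one] at h1
    rw [h1]
    unfold pev
    simp
  obtain ⟨v, hv⟩ := hu.exists_right_inv
  have huv : ∀ i, PC.ev n (η i) u * PC.ev n (η i) v = 1 := by
    intro i
    rw [← hmul, hv, hone]
  have huu : ∀ i, IsUnit (PC.ev n (η i) u) := fun i => IsUnit.of_mul_eq_one _ (huv i)
  have hF0 : ∀ i, PC.ev n (η i) F = 0 := by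
    intro i
    have h1 := hev1 n hn0 (η i) (hc i) P
    rw [hroot i, hinc, hmul] at h1
    exact (huu i).mul_right_eq_zero.1 h1
  -- the derivative
  have hder : incl K (derivative P) = u * MvPowerSeries.pderiv K 1 F +
      F * MvPowerSeries.pderiv K 1 u := by
    rw [← hev2, hinc, Derivation.leibniz, smul_eq_mul, smul_eq_mul]
  have hpd : ∀ i, pev n hn0 (η i) (derivative P) =
      PC.ev n (η i) u * PC.ev n (η i) (MvPowerSeries.pderiv K 1 F) := by
    intro i
    rw [← hev1 n hn0 (η i) (hc i), hder, hadd, hmul, hmul, hF0 i, zero_mul, add_zero]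
  -- division by `F`
  have hs : ∀ J : Ideal (R2 K), F ∈ J → ∀ g : R2 K, ∃ r : (PowerSeries K)[X],
      g - incl K r ∈ J := by
    intro J hJ g
    obtain ⟨q, r, hqr⟩ := hdiv g
    refine ⟨r, ?_⟩
    rw [hqr, add_sub_cancel_right]
    exact J.mul_mem_left _ hJ
  have hle : Module.length K (R2 K ⧸ Ideal.span {F, MvPowerSeries.pderiv K 1 F}) ≤
      Module.length K ((PowerSeries K)[X] ⧸ Ideal.span {P, derivative P}) := by
    have hFm : F ∈ Ideal.span {F, MvPowerSeries.pderiv K 1 F} :=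
      Ideal.subset_span (by simp)
    have hFm' : MvPowerSeries.pderiv K 1 F ∈ Ideal.span {F, MvPowerSeries.pderiv K 1 F} :=
      Ideal.subset_span (by simp)
    apply length_le_of_le
    · rw [Ideal.span_le]
      intro g hg
      simp only [Set.mem_insert_iff, Set.mem_singleton_iff] at hg
      rw [SetLike.mem_coe, Ideal.mem_comap]
      rcases hg with rfl | rfl
      · rw [hinc]
        exact Ideal.mul_mem_left _ _ hFm
      · rw [hder]
        exact Ideal.add_mem _ (Ideal.mul_mem_left _ _ hFm') (Ideal.mul_mem_right _ _ hFm)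
    · exact hs _ hFm
  have hord : ∀ i, (pev n hn0 (η i) (derivative P)).order =
      (PC.ev n (η i) (MvPowerSeries.pderiv K 1 F)).order := by
    intro i
    rw [hpd i, PowerSeries.order_mul]
    have h1 : (PC.ev n (η i) u).order = 0 := PowerSeries.order_zero_of_unit (huu i)
    rw [h1, zero_add]
  have hbd : (n : ℕ∞) * Module.length K (R2 K ⧸ Ideal.span {F, MvPowerSeries.pderiv K 1 F}) ≤
      ∑ i, (PC.ev n (η i) (MvPowerSeries.pderiv K 1 F)).order := by
    refine (mul_le_mul_right hle _).trans ?_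
    refine (hLNB K P d hPm hPd n hn0 η hη (derivative P)).trans (le_of_eq ?_)
    exact Finset.sum_congr rfl fun i _ => hord i
  refine ⟨n, hn0, hnK, η, hXn, hF0, hbd, fun hFy => ?_⟩
  have hder0 : ∀ i, pev n hn0 (η i) (derivative P) ≠ 0 := by
    intro i
    rw [hpd i]
    exact mul_ne_zero (huu i).ne_zero (hFy i)
  refine ⟨fun h => ?_, fun T T' I I' hI hI' => ?_⟩
  · rw [h, top_le_iff] at hle
    exact (hFNL K P d hPm hPd n hn0 η hη (derivative P) hder0).2 hle
  have hJF : ∀ I : Ideal (R2 K), F ∈ I ⊔ Ideal.span {F} := fun I =>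
    Ideal.mem_sup_right (Ideal.mem_span_singleton_self F)
  have hPI : ∀ I : Ideal (R2 K), P ∈ (I ⊔ Ideal.span {F}).comap (incl K) := by
    intro I
    rw [Ideal.mem_comap, hinc]
    exact Ideal.mul_mem_left _ _ (hJF I)
  have hmod : ∀ (I : Ideal (R2 K)) (T : ℕ),
      (∀ g ∈ I, ∀ i, PowerSeries.X ^ (T + 1) * PC.ev n (η i) (MvPowerSeries.pderiv K 1 F) ∣
        PowerSeries.X ^ (2 * n) * PC.ev n (η i) g) →
      ∀ g ∈ (I ⊔ Ideal.span {F}).comap (incl K), ∀ i,
        PowerSeries.X ^ (T + 1) * pev n hn0 (η i) (derivative P) ∣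
          PowerSeries.X ^ (2 * n) * pev n hn0 (η i) g := by
    intro I T hI g hg i
    rw [Ideal.mem_comap, Submodule.mem_sup] at hg
    obtain ⟨a, ha, b, hb, hab⟩ := hg
    rw [Ideal.mem_span_singleton'] at hb
    obtain ⟨c, rfl⟩ := hb
    have h1 : pev n hn0 (η i) g = PC.ev n (η i) a := by
      rw [← hev1 n hn0 (η i) (hc i), ← hab, hadd, hmul, hF0 i, mul_zero, add_zero]
    rw [h1, hpd i, mul_left_comm]
    exact ((huu i).mul_left_dvd).2 (hI a ha i)
  obtain ⟨h3, h4⟩ := hPCP K P d hd hPm hPd n hn0 η hη hder0 T T' _ _ (hPI I) (hPI I')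
    (hmod I T hI) (hmod I' T' hI')
  rw [length_comap _ (hs _ (hJF I)), length_comap _ (hs _ (hJF I'))] at h3 h4
  exact ⟨fun h => hle.trans (h3 h), fun h => (add_le_add hle (le_refl _)).trans (h4 h)⟩

end Pool.Agent.DU5.LNK
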