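import Pool.Agent.Lib.MP_524519_ag.DU5.Top
import Pool.Agent.Lib.MP_524519_ag.DU5.TR.Iface

/-!
# DU5, chapter LNK: the link between the arcs and the plane curve. Statements of the modules.
-/

set_option autoImplicit false

namespace Pool.Agent.DU5.LNK

open MvPowerSeries

/-- The point `(η, s^n, lam s^n)`. -/
noncomputable def arc {F : Type} [Field F] (lam : F) (n : ℕ) (η : PowerSeries F) :
    Fin 3 → PowerSeries F :=
  ![η, PowerSeries.X ^ n, PowerSeries.C lam * PowerSeries.X ^ n]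

/-- LNB: upper bound of the length by the orders at the points (`x = s^n`). -/
def LnbStatement : Prop := ∀ (K : Type) [Field K] (P : Polynomial (PowerSeries K)) (d : ℕ),
  P.Monic → P.natDegree = d → ∀ (n : ℕ) (hn : n ≠ 0) (η : Fin d → PowerSeries K),
  P.map (PC.ex K n hn) = ∏ i, (Polynomial.X - Polynomial.C (η i)) →
  ∀ θ : Polynomial (PowerSeries K),
  (n : ℕ∞) * Module.length K (Polynomial (PowerSeries K) ⧸ Ideal.span {P, θ}) ≤
    ∑ i, (PC.pev n hn (η i) θ).order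

/-- PC2: `PcStatement` with the additional clause `n E ≤ ∑ ord F_y`. -/
def Pc2Statement : Prop := ∀ (K : Type) [Field K] (d : ℕ), 0 < d → PC.Good K d →
  ∀ F : PC.R2 K, PC.Reg d F →
  ∃ n : ℕ, n ≠ 0 ∧ (n : K) ≠ 0 ∧ ∃ η : Fin d → PowerSeries K,
    (∀ i, PowerSeries.X ^ n ∣ η i) ∧ (∀ i, PC.ev n (η i) F = 0) ∧
    (n : ℕ∞) * Module.length K (PC.R2 K ⧸ Ideal.span {F, pderiv K 1 F}) ≤
      ∑ i, (PC.ev n (η i) (pderiv K 1 F)).order ∧
    ((∀ i, PC.ev n (η i) (pderiv K 1 F) ≠ 0) →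
    Module.length K (PC.R2 K ⧸ Ideal.span {F, pderiv K 1 F}) ≠ ⊤ ∧
    ∀ (T T' : ℕ) (I I' : Ideal (PC.R2 K)),
    (∀ g ∈ I, ∀ i, PowerSeries.X ^ (T + 1) * PC.ev n (η i) (pderiv K 1 F) ∣
      PowerSeries.X ^ (2 * n) * PC.ev n (η i) g) →
    (∀ g ∈ I', ∀ i, PowerSeries.X ^ (T' + 1) * PC.ev n (η i) (pderiv K 1 F) ∣
      PowerSeries.X ^ (2 * n) * PC.ev n (η i) g) →
    (3 * n ≤ T + T' + 1 →
      Module.length K (PC.R2 K ⧸ Ideal.span {F, pderiv K 1 F}) ≤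
        Module.length K (PC.R2 K ⧸ (I ⊔ Ideal.span {F})) +
        Module.length K (PC.R2 K ⧸ (I' ⊔ Ideal.span {F}))) ∧
    (4 * n ≤ T + T' + 1 →
      Module.length K (PC.R2 K ⧸ Ideal.span {F, pderiv K 1 F}) + d ≤
        Module.length K (PC.R2 K ⧸ (I ⊔ Ideal.span {F})) +
        Module.length K (PC.R2 K ⧸ (I' ⊔ Ideal.span {F}))))

/-- SUK: the restriction to the plane `x_2 = lam x_1`. -/
def SukStatement : Prop := ∀ (k F : Type) [Field k] [Field F] [Algebra k F] (lam : F),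
  (∀ a b : O k 3, rs lam (a + b) = rs lam a + rs lam b ∧ rs lam (a * b) = rs lam a * rs lam b) ∧
  (∀ (n : ℕ) (η : PowerSeries F), n ≠ 0 → PowerSeries.constantCoeff η = 0 → ∀ h : O k 3,
    ev (arc lam n η) h = PC.ev n η (rs lam h)) ∧
  (∀ h : O k 3, pderiv F 1 (rs lam h) = rs lam (pderiv k 0 h)) ∧
  (∀ h : O k 3, pderiv F 0 (rs lam h) =
    rs lam (pderiv k 1 h) + MvPowerSeries.C lam * rs lam (pderiv k 2 h)) ∧
  (∀ (d : ℕ) (f : O k 3), R3 d f → PC.Reg d (rs lam f))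

/-- ARK: the points `(η, s^n, lam s^n)`: not constant, `vm = n`, `jm_0 = n s^(2n-1)`. -/
def ArkStatement : Prop := ∀ (k F : Type) [Field k] [Field F] [Algebra k F]
  (D : Derivation k F F) (lam : F), D lam = 1 → ∀ (n : ℕ) (η : PowerSeries F), n ≠ 0 →
  PowerSeries.X ^ n ∣ η →
  (∀ i, PowerSeries.constantCoeff (arc lam n η i) = 0) ∧ arc lam n η ≠ 0 ∧
  vm (arc lam n η) = n ∧
  PowerSeries.X * jm D (arc lam n η) 0 = (n : PowerSeries F) * PowerSeries.X ^ (2 * n)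

/-- TYK: the restriction of `IS p f j` is of type `⌊j n / p⌋`. -/
def TykStatement : Prop := ∀ (p : ℕ) (k F : Type) [Field k] [Field F] [Algebra k F]
  (D : Derivation k F F) (lam : F), Nice p D → D lam = 1 → ∀ (f : O k 3) (n : ℕ)
  (η : PowerSeries F), n ≠ 0 → (n : F) ≠ 0 → PowerSeries.X ^ n ∣ η → ev (arc lam n η) f = 0 →
  ∀ j, ∀ h ∈ Ideal.span (rs lam '' (IS p f j : Set (O k 3))),
  PowerSeries.X ^ (j * n / p + 1) * PC.ev n η (pderiv F 1 (rs lam f)) ∣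
    PowerSeries.X ^ (2 * n) * PC.ev n η h

/-- NIL: an ideal of `k⟦x_0,..⟧` of colength `≤ m` contains `x_i^m`. -/
def NilStatement : Prop := ∀ (k : Type) [Field k] (n : ℕ) (J : Ideal (O k n)) (m : ℕ),
  len k J ≤ m → ∀ i : Fin n, (X i : O k n) ^ m ∈ J

/-- VBK: the order of `f_0` at the points is at most `n (m + 1)`. -/
def VbkStatement : Prop := ∀ (k F : Type) [Field k] [Field F] [Algebra k F]
  (D : Derivation k F F) (lam : F), D lam = 1 → ∀ (f : O k 3) (m : ℕ), len k (jac f) ≤ m →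
  ∀ (n : ℕ) (η : PowerSeries F), n ≠ 0 → (n : F) ≠ 0 → PowerSeries.X ^ n ∣ η →
  ev (arc lam n η) f = 0 →
  (ev (arc lam n η) (pderiv k 0 f)).order ≤ (n * (m + 1) : ℕ)

end Pool.Agent.DU5.LNK
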